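import Pool.Agent.H608R4.KM.Stm

/-!
Project KM (helper608), piece QB: `Q` is small, and the sum of the `s_i` is small compared with `Q`.
-/

set_option autoImplicit false

namespace Pool.Agent.TH891.KM

open Finset Pool.Agent.H608R4.KM

theorem qb_four {n : ℕ} {x y : Fin n → ℝ} {k : Fin n → ZMod 4} {c s : Fin n → ℝ}
    (h : Cl n x y k c s) (i : Fin n) :
    x i ^ 4 - 6 * x i ^ 2 * y i ^ 2 + y i ^ 4 = 1 - 8 * (c i ^ 2 * s i ^ 2) ∧
      4 * x i ^ 3 * y i - 4 * x i * y i ^ 3 = 4 * (s i * c i * (1 - 2 * s i ^ 2)) := by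
  have hk : ∀ κ : ZMod 4, κ = 0 ∨ κ = 1 ∨ κ = 2 ∨ κ = 3 := by decide
  have h1 := h.cs i
  have h2 : c i ^ 2 = 1 - s i ^ 2 := by linarith
  have h4 : c i ^ 4 = (1 - s i ^ 2) ^ 2 := by rw [← h2]; ring
  have h3 : c i ^ 3 = c i * (1 - s i ^ 2) := by rw [← h2]; ring
  rcases hk (k i) with hc | hc | hc | hc
  · obtain ⟨ex, ey⟩ := h.r0 i hc
    rw [ex, ey, h4, h3, h2]
    constructor <;> ring
  · obtain ⟨ex, ey⟩ := h.r1 i hc
    rw [ex, ey, h4, h3, h2]
    constructor <;> ring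
  · obtain ⟨ex, ey⟩ := h.r2 i hc
    rw [ex, ey]
    constructor
    · have : (-c i) ^ 4 - 6 * (-c i) ^ 2 * (-s i) ^ 2 + (-s i) ^ 4 = c i ^ 4 - 6 * c i ^ 2 * s i ^ 2 + s i ^ 4 := by
        ring
      rw [this, h4, h2]
      ring
    · have : 4 * (-c i) ^ 3 * (-s i) - 4 * (-c i) * (-s i) ^ 3 = 4 * c i ^ 3 * s i - 4 * c i * s i ^ 3 := by
        ring
      rw [this, h3]
      ring
  · obtain ⟨ex, ey⟩ := h.r3 i hc
    rw [ex, ey]
    constructor
    · have : s i ^ 4 - 6 * s i ^ 2 * (-c i) ^ 2 + (-c i) ^ 4 = c i ^ 4 - 6 * c i ^ 2 * s i ^ 2 + s i ^ 4 := by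
        ring
      rw [this, h4, h2]
      ring
    · have : 4 * s i ^ 3 * (-c i) - 4 * s i * (-c i) ^ 3 = 4 * c i ^ 3 * s i - 4 * c i * s i ^ 3 := by
        ring
      rw [this, h3]
      ring

theorem qb_point {c s : ℝ} (h1 : c ^ 2 + s ^ 2 = 1) (h0 : 0 < c) :
    |s - s * c * (1 - 2 * s ^ 2)| ≤ 3 * s ^ 2 := by
  have hs2 : 0 ≤ s ^ 2 := sq_nonneg s
  have hc1 : c ≤ 1 := by nlinarith
  have hs1 : |s| ≤ 1 := by
    rw [abs_le_one_iff_mul_self_le_one]
    nlinarith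
  have e : s - s * c * (1 - 2 * s ^ 2) = s * (1 - c + 2 * c * s ^ 2) := by ring
  have hn : 0 ≤ 1 - c + 2 * c * s ^ 2 := by
    have := mul_nonneg (mul_nonneg (by norm_num : (0 : ℝ) ≤ 2) h0.le) hs2
    linarith
  rw [e, abs_mul, abs_of_nonneg hn]
  have hb : 1 - c + 2 * c * s ^ 2 ≤ 3 * s ^ 2 := by
    have h3 : 1 - c ≤ s ^ 2 := by nlinarith
    have h4 : c * s ^ 2 ≤ 1 * s ^ 2 := mul_le_mul_of_nonneg_right hc1 hs2
    linarith
  calc |s| * (1 - c + 2 * c * s ^ 2) ≤ 1 * (3 * s ^ 2) := mul_le_mul hs1 hb hn (by norm_num)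
    _ = 3 * s ^ 2 := one_mul _

theorem t_QB : S_QB := by
  intro n x y k c s hn h hS4 hC4 hR
  have hn' : (0 : ℝ) < n := by exact_mod_cast hn
  have hC : C4 x y = n - 8 * ∑ i, c i ^ 2 * s i ^ 2 := by
    unfold C4
    rw [Finset.sum_congr rfl fun i _ => (qb_four h i).1, Finset.sum_sub_distrib, ← Finset.mul_sum]
    simp
  have hQ : Q s / 2 ≤ ∑ i, c i ^ 2 * s i ^ 2 := by
    unfold Q
    rw [Finset.sum_div]
    apply Finset.sum_le_sum
    intro i _
    have := mul_le_mul_of_nonneg_right (h.ch i) (sq_nonneg (s i))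
    linarith
  have hQ0 : 0 ≤ Q s := Finset.sum_nonneg fun i _ => sq_nonneg _
  constructor
  · have hR4 : R4 x y = C4 x y ^ 2 := by
      unfold R4
      rw [hS4]
      ring
    rw [hR4] at hR
    have hd : 0 ≤ (n : ℝ) - C4 x y := by rw [hC]; linarith
    have h1 : ((n : ℝ) - C4 x y) * n ≤ 100 * dl * n * n := by
      have := mul_nonneg hd hC4
      nlinarith
    have h2 := le_of_mul_le_mul_right h1 hn'
    rw [hC] at h2
    linarith
  · have h0 : ∑ i, s i * c i * (1 - 2 * s i ^ 2) = 0 := by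
      have : S4 x y = 4 * ∑ i, s i * c i * (1 - 2 * s i ^ 2) := by
        unfold S4
        rw [Finset.sum_congr rfl fun i _ => (qb_four h i).2, ← Finset.mul_sum]
      rw [hS4] at this
      linarith
    have e : ∑ i, s i = ∑ i, (s i - s i * c i * (1 - 2 * s i ^ 2)) := by
      rw [Finset.sum_sub_distrib, h0, sub_zero]
    rw [e]
    refine (Finset.abs_sum_le_sum_abs _ _).trans ?_
    unfold Q
    rw [Finset.mul_sum]
    exact Finset.sum_le_sum fun i _ => qb_point (h.cs i) (h.c0 i)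

end Pool.Agent.TH891.KM
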